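import Mathlib

/-!
Consistently ordered hyperplane transversals: definitions.
-/

namespace Pool.Agent.H392R3.HN

/-- `det (1 q₀; 1 q₁; …; 1 q_k)`, the determinant whose sign is the orientation of `k+1`
points of `ℝ^k`. -/
noncomputable def orient {k : ℕ} (q : Fin (k + 1) → (Fin k → ℝ)) : ℝ :=
  (Matrix.of fun i => (Fin.cons 1 (q i) : Fin (k + 1) → ℝ)).det

/-- The members `a i`, `i ∈ B`, of a family of sets in `ℝ^(k+1)` are met consistently with the
`k`-ordering `p` by some oriented hyperplane: there is an (orientation-defining) affine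
coordinate system `φ : ℝ^k → ℝ^(k+1)` of a hyperplane and points `y i` such that
`φ (y i) ∈ a i` for `i ∈ B`, and all `(k+1)`-tuples of the `y i`, `i ∈ B`, have the same
orientation as the corresponding tuples of the `p i`. -/
def MetConsistently {ι : Type} {k : ℕ} (a : ι → Set (Fin (k + 1) → ℝ))
    (p : ι → (Fin k → ℝ)) (B : Set ι) : Prop :=
  ∃ φ : (Fin k → ℝ) →ᵃ[ℝ] (Fin (k + 1) → ℝ), Function.Injective φ ∧
    ∃ y : ι → (Fin k → ℝ), (∀ i ∈ B, φ (y i) ∈ a i) ∧
      ∀ s : Fin (k + 1) → ι, (∀ j, s j ∈ B) →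
        SignType.sign (orient fun j => y (s j)) = SignType.sign (orient fun j => p (s j))

/-- `h` is a Helly number for consistently ordered hyperplane transversals in `ℝ^(k+1)`. -/
def IsHellyNumber (k h : ℕ) : Prop :=
  ∀ (ι : Type) [Fintype ι] (a : ι → Set (Fin (k + 1) → ℝ)) (p : ι → (Fin k → ℝ)),
    Function.Injective p →
    (∀ i, (a i).Nonempty ∧ IsCompact (a i) ∧ Convex ℝ (a i)) →
    (∀ i j, i ≠ j → Disjoint (a i) (a j)) →
    (∀ B : Finset ι, B.card ≤ h → MetConsistently a p ↑B) →
    MetConsistently a p Set.univ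

/-! ### homogeneous coordinates -/

/-- total weight -/
def wt {k : ℕ} (H : Fin (k + 1) → ℝ) : ℝ := ∑ j, H j

/-- the point with homogeneous coordinates `H` -/
noncomputable def pnt {k : ℕ} (H : Fin (k + 1) → ℝ) : Fin k → ℝ := fun j => H j.succ / wt H

/-- the ambient point at height parameter `t` -/
noncomputable def apnt {k : ℕ} (t : ℝ) (H : Fin (k + 1) → ℝ) : Fin (k + 1) → ℝ :=
  Fin.cons (t * H 0 / wt H) (pnt H)

lemma orient_pnt {k : ℕ} (H : Fin (k + 1) → Fin (k + 1) → ℝ) (hw : ∀ i, 0 < wt (H i)) :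
    SignType.sign (orient fun j => pnt (H j)) = SignType.sign (Matrix.of H).det := by
  set C : Matrix (Fin (k + 1)) (Fin (k + 1)) ℝ :=
    Matrix.of fun i j => if j = 0 then 1 else if i = j then 1 else 0 with hC
  have hCdet : C.det = 1 := by
    rw [Matrix.det_of_isLowerTriangular]
    · apply Finset.prod_eq_one
      intro i _
      simp only [hC, Matrix.of_apply]
      split_ifs <;> simp_all
    · intro i j hij
      simp only [hC, Matrix.of_apply]
      have hij' : i < j := hij
      have h1 : j ≠ 0 := by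
        rintro rfl
        exact absurd hij' (Fin.not_lt_zero i)
      rw [if_neg h1, if_neg (ne_of_lt hij')]
  have hmul : (Matrix.of fun i => (Fin.cons 1 (pnt (H i)) : Fin (k + 1) → ℝ))
      = Matrix.diagonal (fun i => (wt (H i))⁻¹) * (Matrix.of H * C) := by
    ext i j
    rw [Matrix.diagonal_mul, Matrix.mul_apply]
    refine Fin.cases ?_ (fun j => ?_) j
    · simp only [hC, Matrix.of_apply, Fin.cons_zero, if_true, mul_one]
      have := (hw i).ne'
      rw [show (∑ x, H i x) = wt (H i) from rfl]
      field_simp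
    · simp only [hC, Matrix.of_apply, Fin.cons_succ, pnt, Fin.succ_ne_zero, if_false, mul_ite,
        mul_one, mul_zero, Finset.sum_ite_eq', Finset.mem_univ, if_true]
      rw [div_eq_inv_mul]
  rw [orient, hmul, Matrix.det_mul, Matrix.det_mul, Matrix.det_diagonal, hCdet, mul_one,
    sign_mul]
  have : 0 < ∏ i, (wt (H i))⁻¹ := Finset.prod_pos fun i _ => inv_pos.2 (hw i)
  rw [sign_pos this, one_mul]

/-- an affine self-map multiplies all orientations by the same factor -/
lemma orient_affine {k : ℕ} (A : (Fin k → ℝ) →ᵃ[ℝ] (Fin k → ℝ)) :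
    ∃ c : ℝ, ∀ q : Fin (k + 1) → (Fin k → ℝ), orient (fun j => A (q j)) = c * orient q := by
  set N : Matrix (Fin (k + 1)) (Fin (k + 1)) ℝ :=
    Matrix.of (Fin.cons (Fin.cons 1 (A 0)) (fun l => Fin.cons 0 (A.linear (Pi.single l 1)))) with hN
  refine ⟨N.det, fun q => ?_⟩
  have : (Matrix.of fun i => (Fin.cons 1 (A (q i)) : Fin (k + 1) → ℝ))
      = (Matrix.of fun i => (Fin.cons 1 (q i) : Fin (k + 1) → ℝ)) * N := by
    ext i j
    rw [Matrix.mul_apply, Fin.sum_univ_succ]
    simp only [Matrix.of_apply, hN, Fin.cons_zero, Fin.cons_succ, one_mul]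
    refine Fin.cases ?_ (fun j => ?_) j
    · simp
    · simp only [Fin.cons_succ]
      have h1 : A (q i) = A.linear (q i) + A 0 := by
        have := A.map_vadd 0 (q i)
        simpa using this
      have h2 : A.linear (q i) = ∑ l, q i l • A.linear (Pi.single l 1) := by
        have h3 : q i = ∑ l, q i l • (Pi.single l 1 : Fin k → ℝ) := by
          ext m
          simp [Finset.sum_apply, Pi.single_apply]
        conv_lhs => rw [h3]
        rw [map_sum]
        exact Finset.sum_congr rfl fun l _ => map_smul _ _ _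
      rw [h1, Pi.add_apply, h2, Finset.sum_apply, add_comm]
      simp
  rw [orient, orient, this, Matrix.det_mul, mul_comm]

end Pool.Agent.H392R3.HN
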