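import Mathlib
import Pool.Agent.H392R3.HN.Defs

namespace Pool.Agent.H392R3.HN

/-- homogeneous vector of a moving point -/
def vv (k : ℕ) (x y : ℝ) : Fin (k + 1) → ℝ := fun j =>
  if (j : ℕ) = 0 then 1 else if (j : ℕ) = 1 then x else if (j : ℕ) = 2 then y else 0

/-- homogeneous vector of a fixed point -/
def ee (k : ℕ) (i : Fin k) : Fin (k + 1) → ℝ := fun l => if (l : ℕ) = i + 1 then 1 else 0

/-- the configuration -/
def cfg {N : ℕ} (k : ℕ) (x y : Fin N → ℝ) : Fin N ⊕ Fin k → Fin (k + 1) → ℝ :=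
  Sum.elim (fun n => vv k (x n) (y n)) (ee k)

def liftIdx {N k : ℕ} : Fin N ⊕ Fin k → Fin N ⊕ Fin (k + 1) := Sum.map id Fin.castSucc

variable {N : ℕ}

lemma cfg_lift_castSucc (k : ℕ) (x y : Fin N → ℝ) (i : Fin N ⊕ Fin k) (l : Fin (k + 1)) :
    cfg (k + 1) x y (liftIdx i) (Fin.castSucc l) = cfg k x y i l := by
  rcases i with n | j
  · simp [cfg, liftIdx, vv]
  · simp [cfg, liftIdx, ee]

lemma cfg_lift_last (k : ℕ) (hk : 2 ≤ k) (x y : Fin N → ℝ) (i : Fin N ⊕ Fin k) :
    cfg (k + 1) x y (liftIdx i) (Fin.last (k + 1)) = 0 := by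
  rcases i with n | j
  · simp only [cfg, liftIdx, vv, Sum.map_inl, Sum.elim_inl, Fin.val_last]
    rw [if_neg (by omega), if_neg (by omega), if_neg (by omega)]
  · simp only [cfg, liftIdx, ee, Sum.map_inr, Sum.elim_inr, Fin.val_last, Fin.val_castSucc]
    rw [if_neg (by omega)]

lemma cfg_last_castSucc (k : ℕ) (x y : Fin N → ℝ) (l : Fin (k + 1)) :
    cfg (k + 1) x y (Sum.inr (Fin.last k)) (Fin.castSucc l) = 0 := by
  simp only [cfg, ee, Sum.elim_inr, Fin.val_last, Fin.val_castSucc]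
  rw [if_neg (by omega)]

lemma cfg_last_last (k : ℕ) (x y : Fin N → ℝ) :
    cfg (k + 1) x y (Sum.inr (Fin.last k)) (Fin.last (k + 1)) = 1 := by
  simp [cfg, ee]

lemma idx_cases {k : ℕ} (i : Fin N ⊕ Fin (k + 1)) :
    i = Sum.inr (Fin.last k) ∨ ∃ i', i = liftIdx (k := k) i' := by
  rcases i with n | j
  · exact Or.inr ⟨Sum.inl n, rfl⟩
  · refine Fin.lastCases (Or.inl rfl) (fun j => Or.inr ⟨Sum.inr j, rfl⟩) j

lemma det_cfg_succ (k : ℕ) (hk : 2 ≤ k) (x y : Fin N → ℝ)
    (s : Fin (k + 2) → Fin N ⊕ Fin (k + 1)) (i0 : Fin (k + 2))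
    (h0 : s i0 = Sum.inr (Fin.last k)) (s' : Fin (k + 1) → Fin N ⊕ Fin k)
    (h1 : ∀ j, s (i0.succAbove j) = liftIdx (s' j)) :
    (Matrix.of fun j => cfg (k + 1) x y (s j)).det
      = (-1) ^ ((i0 : ℕ) + (k + 1)) * (Matrix.of fun j => cfg k x y (s' j)).det := by
  rw [Matrix.det_succ_column _ (Fin.last (k + 1)), Finset.sum_eq_single i0]
  · rw [Matrix.of_apply, h0, cfg_last_last, mul_one]
    congr 1
    congr 1
    ext j l
    rw [Matrix.submatrix_apply, Matrix.of_apply, h1, Fin.succAbove_last, cfg_lift_castSucc]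
    rfl
  · intro b _ hb
    obtain ⟨j, rfl⟩ := Fin.exists_succAbove_eq hb
    rw [Matrix.of_apply, h1, cfg_lift_last k hk]
    ring
  · intro h
    exact absurd (Finset.mem_univ _) h

lemma sign_step (k : ℕ) (hk : 2 ≤ k) (S : Set (Fin N)) (x y x' y' : Fin N → ℝ)
    (h : ∀ s : Fin (k + 1) → Fin N ⊕ Fin k, (∀ j n, s j = Sum.inl n → n ∈ S) →
      SignType.sign (Matrix.of fun j => cfg k x y (s j)).det
        = SignType.sign (Matrix.of fun j => cfg k x' y' (s j)).det)
    (s : Fin (k + 2) → Fin N ⊕ Fin (k + 1)) (hs : ∀ j n, s j = Sum.inl n → n ∈ S) :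
    SignType.sign (Matrix.of fun j => cfg (k + 1) x y (s j)).det
        = SignType.sign (Matrix.of fun j => cfg (k + 1) x' y' (s j)).det := by
  by_cases h2 : ∃ i1 i2, i1 ≠ i2 ∧ s i1 = Sum.inr (Fin.last k) ∧ s i2 = Sum.inr (Fin.last k)
  · obtain ⟨i1, i2, h12, e1, e2⟩ := h2
    have z : ∀ x y : Fin N → ℝ, (Matrix.of fun j => cfg (k + 1) x y (s j)).det = 0 := by
      intro x y
      apply Matrix.det_zero_of_row_eq h12
      ext l
      rw [Matrix.of_apply, Matrix.of_apply, e1, e2]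
    rw [z, z]
  · by_cases h1 : ∃ i0, s i0 = Sum.inr (Fin.last k)
    · obtain ⟨i0, h0⟩ := h1
      have hl : ∀ j, ∃ i', s (i0.succAbove j) = liftIdx (k := k) i' := by
        intro j
        rcases idx_cases (s (i0.succAbove j)) with e | e
        · exact absurd ⟨i0, i0.succAbove j, (Fin.succAbove_ne i0 j).symm, h0, e⟩ h2
        · exact e
      choose s' hs' using hl
      rw [det_cfg_succ k hk x y s i0 h0 s' hs', det_cfg_succ k hk x' y' s i0 h0 s' hs',
        sign_mul, sign_mul, h s']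
      intro j n hj
      apply hs (i0.succAbove j) n
      rw [hs' j, hj]
      rfl
    · have hl : ∀ j, ∃ i', s j = liftIdx (k := k) i' := by
        intro j
        rcases idx_cases (s j) with e | e
        · exact absurd ⟨j, e⟩ h1
        · exact e
      have z : ∀ x y : Fin N → ℝ, (Matrix.of fun j => cfg (k + 1) x y (s j)).det = 0 := by
        intro x y
        apply Matrix.det_eq_zero_of_column_eq_zero (Fin.last (k + 1))
        intro i
        obtain ⟨i', hi'⟩ := hl i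
        rw [Matrix.of_apply, hi', cfg_lift_last k hk]
      rw [z, z]

/-- sign equalities pass from level 2 to all levels -/
lemma sign_all (S : Set (Fin N)) (x y x' y' : Fin N → ℝ)
    (h : ∀ s : Fin 3 → Fin N ⊕ Fin 2, (∀ j n, s j = Sum.inl n → n ∈ S) →
      SignType.sign (Matrix.of fun j => cfg 2 x y (s j)).det
        = SignType.sign (Matrix.of fun j => cfg 2 x' y' (s j)).det) :
    ∀ k : ℕ, 2 ≤ k → ∀ s : Fin (k + 1) → Fin N ⊕ Fin k, (∀ j n, s j = Sum.inl n → n ∈ S) →
      SignType.sign (Matrix.of fun j => cfg k x y (s j)).det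
        = SignType.sign (Matrix.of fun j => cfg k x' y' (s j)).det := by
  intro k hk
  induction k, hk using Nat.le_induction with
  | base => exact h
  | succ k hk ih => exact fun s hs => sign_step k hk S x y x' y' ih s hs

/-- every level 2 determinant occurs at every level -/
lemma exists_level (s₂ : Fin 3 → Fin N ⊕ Fin 2) :
    ∀ k : ℕ, 2 ≤ k → ∃ s : Fin (k + 1) → Fin N ⊕ Fin k, ∀ x y : Fin N → ℝ,
      (Matrix.of fun j => cfg k x y (s j)).det = (Matrix.of fun j => cfg 2 x y (s₂ j)).det := by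
  intro k hk
  induction k, hk using Nat.le_induction with
  | base => exact ⟨s₂, fun x y => rfl⟩
  | succ k hk ih =>
    obtain ⟨s, hs⟩ := ih
    refine ⟨Fin.snoc (fun j => liftIdx (s j)) (Sum.inr (Fin.last k)), fun x y => ?_⟩
    rw [det_cfg_succ k hk x y _ (Fin.last (k + 1)) (by simp) s
      (fun j => by rw [Fin.succAbove_last, Fin.snoc_castSucc]), hs]
    rw [Fin.val_last, Even.neg_one_pow ⟨k + 1, rfl⟩, one_mul]

end Pool.Agent.H392R3.HN
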