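import Mathlib
import Pool.Agent.H392R3.HN.Lift

namespace Pool.Agent.H392R3.HN

variable {N : ℕ}

/-- 3×3 determinant -/
def D3 (f g h : Fin 3 → ℝ) : ℝ :=
  f 0 * g 1 * h 2 - f 0 * g 2 * h 1 - f 1 * g 0 * h 2 + f 1 * g 2 * h 0 + f 2 * g 0 * h 1
    - f 2 * g 1 * h 0

lemma det_eq_D3 (s : Fin 3 → Fin 3 → ℝ) :
    (Matrix.of fun j => s j).det = D3 (s 0) (s 1) (s 2) := by
  rw [Matrix.det_fin_three]
  simp only [Matrix.of_apply, D3]

def rk : Fin N ⊕ Fin 2 → ℕ := Sum.elim (fun n => (n : ℕ)) (fun j => N + j)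

lemma rk_inj : Function.Injective (rk (N := N)) := by
  rintro (a | a) (b | b) h <;> simp only [rk, Sum.elim_inl, Sum.elim_inr] at h
  · rw [Fin.ext h]
  · have := a.2; omega
  · have := b.2; omega
  · rw [show a = b from Fin.ext (by omega)]

lemma cfg2_inl (x y : Fin N → ℝ) (n : Fin N) :
    cfg 2 x y (Sum.inl n) 0 = 1 ∧ cfg 2 x y (Sum.inl n) 1 = x n ∧ cfg 2 x y (Sum.inl n) 2 = y n := by
  refine ⟨?_, ?_, ?_⟩ <;> simp [cfg, vv]

lemma cfg2_inr0 (x y : Fin N → ℝ) :
    cfg 2 x y (Sum.inr 0) 0 = 0 ∧ cfg 2 x y (Sum.inr 0) 1 = 1 ∧ cfg 2 x y (Sum.inr 0) 2 = 0 := by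
  refine ⟨?_, ?_, ?_⟩ <;> simp [cfg, ee]

lemma cfg2_inr1 (x y : Fin N → ℝ) :
    cfg 2 x y (Sum.inr 1) 0 = 0 ∧ cfg 2 x y (Sum.inr 1) 1 = 0 ∧ cfg 2 x y (Sum.inr 1) 2 = 1 := by
  refine ⟨?_, ?_, ?_⟩ <;> simp [cfg, ee]

/-- orientation of a triple of moving points -/
def tri (x y : Fin N → ℝ) (u v w : Fin N) : ℝ :=
  (x v - x u) * (y w - y u) - (y v - y u) * (x w - x u)

lemma D3_inl (x y : Fin N → ℝ) (u v w : Fin N) :
    D3 (cfg 2 x y (Sum.inl u)) (cfg 2 x y (Sum.inl v)) (cfg 2 x y (Sum.inl w)) = tri x y u v w := by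
  obtain ⟨a1, a2, a3⟩ := cfg2_inl x y u
  obtain ⟨b1, b2, b3⟩ := cfg2_inl x y v
  obtain ⟨c1, c2, c3⟩ := cfg2_inl x y w
  rw [D3, a1, a2, a3, b1, b2, b3, c1, c2, c3, tri]
  ring

lemma sorted_sign (S : Set (Fin N)) (x y x' y' : Fin N → ℝ)
    (hx : StrictMono x) (hy : StrictMono y) (hx' : StrictMono x') (hy' : StrictMono y')
    (h : ∀ u v w, u ∈ S → v ∈ S → w ∈ S → u < v → v < w → 0 < tri x y u v w)
    (h' : ∀ u v w, u < v → v < w → 0 < tri x' y' u v w)
    (a b c : Fin N ⊕ Fin 2) (ha : ∀ n, a = Sum.inl n → n ∈ S) (hb : ∀ n, b = Sum.inl n → n ∈ S)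
    (hc : ∀ n, c = Sum.inl n → n ∈ S) (hab : rk a < rk b) (hbc : rk b < rk c) :
    SignType.sign (D3 (cfg 2 x y a) (cfg 2 x y b) (cfg 2 x y c))
      = SignType.sign (D3 (cfg 2 x' y' a) (cfg 2 x' y' b) (cfg 2 x' y' c)) := by
  rcases c with w | c
  · rcases b with v | b
    · rcases a with u | a
      · simp only [rk, Sum.elim_inl] at hab hbc
        rw [D3_inl, D3_inl, sign_pos (h u v w (ha _ rfl) (hb _ rfl) (hc _ rfl) hab hbc),
          sign_pos (h' u v w hab hbc)]
      · simp only [rk, Sum.elim_inl, Sum.elim_inr] at hab hbc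
        have := v.2; omega
    · simp only [rk, Sum.elim_inl, Sum.elim_inr] at hab hbc
      have := w.2; omega
  · have key : ∀ (x y : Fin N → ℝ) (u v : Fin N),
        D3 (cfg 2 x y (Sum.inl u)) (cfg 2 x y (Sum.inl v)) (cfg 2 x y (Sum.inr 0)) = -(y v - y u)
        ∧ D3 (cfg 2 x y (Sum.inl u)) (cfg 2 x y (Sum.inl v)) (cfg 2 x y (Sum.inr 1)) = x v - x u
        ∧ D3 (cfg 2 x y (Sum.inl u)) (cfg 2 x y (Sum.inr 0)) (cfg 2 x y (Sum.inr 1)) = 1 := by
      intro x y u v
      obtain ⟨a1, a2, a3⟩ := cfg2_inl x y u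
      obtain ⟨b1, b2, b3⟩ := cfg2_inl x y v
      obtain ⟨c1, c2, c3⟩ := cfg2_inr0 x y
      obtain ⟨d1, d2, d3⟩ := cfg2_inr1 x y
      refine ⟨?_, ?_, ?_⟩
      · rw [D3, a1, a2, a3, b1, b2, b3, c1, c2, c3]; ring
      · rw [D3, a1, a2, a3, b1, b2, b3, d1, d2, d3]; ring
      · rw [D3, a1, a2, a3, c1, c2, c3, d1, d2, d3]; ring
    fin_cases c
    · rcases b with v | b
      · rcases a with u | a
        · simp only [rk, Sum.elim_inl] at hab
          have e1 := (key x y u v).1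
          have e2 := (key x' y' u v).1
          simp only [Fin.zero_eta, Fin.isValue] at *
          rw [e1, e2, sign_neg (by linarith [hy (show u < v from hab)]),
            sign_neg (by linarith [hy' (show u < v from hab)])]
        · simp only [rk, Sum.elim_inl, Sum.elim_inr] at hab
          have := v.2; omega
      · simp [rk] at hbc
    · rcases b with v | b
      · rcases a with u | a
        · simp only [rk, Sum.elim_inl] at hab
          have e1 := (key x y u v).2.1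
          have e2 := (key x' y' u v).2.1
          simp only [Fin.mk_one, Fin.isValue] at *
          rw [e1, e2, sign_pos (by linarith [hx (show u < v from hab)]),
            sign_pos (by linarith [hx' (show u < v from hab)])]
        · simp only [rk, Sum.elim_inl, Sum.elim_inr] at hab
          have := v.2; omega
      · fin_cases b
        · rcases a with u | a
          · have e1 := (key x y u u).2.2
            have e2 := (key x' y' u u).2.2
            simp only [Fin.mk_one, Fin.isValue, Fin.zero_eta] at *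
            rw [e1, e2]
          · simp [rk] at hab
        · simp [rk] at hbc

lemma D3_swap1 (f g h : Fin 3 → ℝ) : D3 g f h = -D3 f g h := by simp only [D3]; ring
lemma D3_swap2 (f g h : Fin 3 → ℝ) : D3 f h g = -D3 f g h := by simp only [D3]; ring

lemma all_sign (S : Set (Fin N)) (x y x' y' : Fin N → ℝ)
    (hx : StrictMono x) (hy : StrictMono y) (hx' : StrictMono x') (hy' : StrictMono y')
    (h : ∀ u v w, u ∈ S → v ∈ S → w ∈ S → u < v → v < w → 0 < tri x y u v w)
    (h' : ∀ u v w, u < v → v < w → 0 < tri x' y' u v w)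
    (s : Fin 3 → Fin N ⊕ Fin 2) (hs : ∀ j n, s j = Sum.inl n → n ∈ S) :
      SignType.sign (Matrix.of fun j => cfg 2 x y (s j)).det
        = SignType.sign (Matrix.of fun j => cfg 2 x' y' (s j)).det := by
  rw [det_eq_D3, det_eq_D3]
  have key := sorted_sign S x y x' y' hx hy hx' hy' h h'
  -- all orderings
  have g : ∀ a b c : Fin N ⊕ Fin 2, (∀ n, a = Sum.inl n → n ∈ S) → (∀ n, b = Sum.inl n → n ∈ S) →
      (∀ n, c = Sum.inl n → n ∈ S) →
      SignType.sign (D3 (cfg 2 x y a) (cfg 2 x y b) (cfg 2 x y c))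
      = SignType.sign (D3 (cfg 2 x' y' a) (cfg 2 x' y' b) (cfg 2 x' y' c)) := by
    intro a b c ha hb hc
    have zab : ∀ f g : Fin 3 → ℝ, D3 f f g = 0 := by intro f g; simp only [D3]; ring
    have zbc : ∀ f g : Fin 3 → ℝ, D3 f g g = 0 := by intro f g; simp only [D3]; ring
    have zac : ∀ f g : Fin 3 → ℝ, D3 f g f = 0 := by intro f g; simp only [D3]; ring
    rcases lt_trichotomy (rk a) (rk b) with ab | ab | ab
    · rcases lt_trichotomy (rk b) (rk c) with bc | bc | bc
      · exact key a b c ha hb hc ab bc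
      · rw [rk_inj bc, zbc, zbc]
      · rcases lt_trichotomy (rk a) (rk c) with ac | ac | ac
        · rw [D3_swap2 (cfg 2 x y a) (cfg 2 x y c) (cfg 2 x y b),
            D3_swap2 (cfg 2 x' y' a) (cfg 2 x' y' c) (cfg 2 x' y' b), Left.sign_neg, Left.sign_neg,
            key a c b ha hc hb ac bc]
        · rw [rk_inj ac, zac, zac]
        · -- c < a < b
          rw [D3_swap2 (cfg 2 x y a) (cfg 2 x y c) (cfg 2 x y b),
            D3_swap2 (cfg 2 x' y' a) (cfg 2 x' y' c) (cfg 2 x' y' b),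
            D3_swap1 (cfg 2 x y c) (cfg 2 x y a) (cfg 2 x y b),
            D3_swap1 (cfg 2 x' y' c) (cfg 2 x' y' a) (cfg 2 x' y' b), neg_neg, neg_neg,
            key c a b hc ha hb ac ab]
    · rw [rk_inj ab, zab, zab]
    · rcases lt_trichotomy (rk a) (rk c) with ac | ac | ac
      · -- b < a < c
        rw [D3_swap1 (cfg 2 x y b) (cfg 2 x y a) (cfg 2 x y c),
            D3_swap1 (cfg 2 x' y' b) (cfg 2 x' y' a) (cfg 2 x' y' c), Left.sign_neg, Left.sign_neg,
            key b a c hb ha hc ab ac]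
      · rw [rk_inj ac, zac, zac]
      · rcases lt_trichotomy (rk b) (rk c) with bc | bc | bc
        · -- b < c < a
          rw [D3_swap1 (cfg 2 x y b) (cfg 2 x y a) (cfg 2 x y c),
            D3_swap1 (cfg 2 x' y' b) (cfg 2 x' y' a) (cfg 2 x' y' c),
            D3_swap2 (cfg 2 x y b) (cfg 2 x y c) (cfg 2 x y a),
            D3_swap2 (cfg 2 x' y' b) (cfg 2 x' y' c) (cfg 2 x' y' a), neg_neg, neg_neg,
            key b c a hb hc ha bc ac]
        · rw [rk_inj bc, zbc, zbc]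
        · -- c < b < a
          rw [D3_swap1 (cfg 2 x y b) (cfg 2 x y a) (cfg 2 x y c),
            D3_swap1 (cfg 2 x' y' b) (cfg 2 x' y' a) (cfg 2 x' y' c),
            D3_swap2 (cfg 2 x y b) (cfg 2 x y c) (cfg 2 x y a),
            D3_swap2 (cfg 2 x' y' b) (cfg 2 x' y' c) (cfg 2 x' y' a),
            D3_swap1 (cfg 2 x y c) (cfg 2 x y b) (cfg 2 x y a),
            D3_swap1 (cfg 2 x' y' c) (cfg 2 x' y' b) (cfg 2 x' y' a), neg_neg, neg_neg,
            Left.sign_neg, Left.sign_neg,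
            key c b a hc hb ha bc ab]
  exact g _ _ _ (hs 0) (hs 1) (hs 2)

end Pool.Agent.H392R3.HN
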