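import Mathlib
import Pool.Agent.H392R3.HN.Two

namespace Pool.Agent.H392R3.HN

/-- start of the bad time interval of the cluster of `n` -/
noncomputable def al (K n : ℕ) : ℝ := ((n / 3 : ℕ) : ℝ) / K
/-- end of the bad time interval of the cluster of `n` -/
noncomputable def be (K n : ℕ) : ℝ := (((n / 3 : ℕ) : ℝ) + 1) / K

noncomputable def dl (n : ℕ) : ℝ := if n % 3 = 2 then 1 / (16 * ((n : ℝ) - 1)) else 0

noncomputable def ep (K n : ℕ) (t : ℝ) : ℝ :=
  if n % 3 = 1 then 1 - 2 * n * (32 * n * t + al K n * be K n) /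
    ((32 * n + al K n) * (32 * n + be K n)) else 0

noncomputable def XX (t : ℝ) (n : ℕ) : ℝ := n + dl n * t
noncomputable def YY (K : ℕ) (t : ℝ) (n : ℕ) : ℝ := (n : ℝ) ^ 2 + ep K n t

lemma XX_affine (t : ℝ) (n : ℕ) : XX t n = (1 - t) * XX 0 n + t * XX 1 n := by
  simp only [XX]; ring

lemma YY_affine (K : ℕ) (t : ℝ) (n : ℕ) : YY K t n = (1 - t) * YY K 0 n + t * YY K 1 n := by
  simp only [YY, ep]
  split_ifs
  · ring
  · ring

lemma al_be {K n : ℕ} (hn : n < 3 * K) : 0 ≤ al K n ∧ al K n < be K n ∧ be K n ≤ 1 := by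
  have hK : 0 < K := by omega
  have hK' : (0 : ℝ) < K := by exact_mod_cast hK
  refine ⟨by unfold al; positivity, ?_, ?_⟩
  · unfold al be
    gcongr
    linarith
  · unfold be
    rw [div_le_one hK']
    have : n / 3 + 1 ≤ K := by omega
    exact_mod_cast this

lemma dl_nonneg (n : ℕ) : 0 ≤ dl n := by
  unfold dl
  split_ifs with h
  · have : (2 : ℝ) ≤ n := by exact_mod_cast (show 2 ≤ n by omega)
    have : 0 < 16 * ((n : ℝ) - 1) := by linarith
    positivity
  · exact le_rfl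

lemma dl_le (n : ℕ) : dl n ≤ 1 / 16 ∧ n * dl n ≤ 1 / 8 := by
  unfold dl
  split_ifs with h
  · have h2 : (2 : ℝ) ≤ n := by exact_mod_cast (show 2 ≤ n by omega)
    have h3 : 0 < 16 * ((n : ℝ) - 1) := by linarith
    constructor
    · rw [div_le_div_iff₀ h3 (by norm_num)]; linarith
    · rw [mul_one_div, div_le_div_iff₀ h3 (by norm_num)]; linarith
  · constructor <;> norm_num

lemma ep_mem {K n : ℕ} (hn : n < 3 * K) {t : ℝ} (ht0 : 0 ≤ t) (ht1 : t ≤ 1) :
    0 ≤ ep K n t ∧ ep K n t ≤ 1 := by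
  obtain ⟨a0, ab, b1⟩ := al_be hn
  unfold ep
  split_ifs with h
  · have h1 : (1 : ℝ) ≤ n := by exact_mod_cast (show 1 ≤ n by omega)
    have hD : 0 < (32 * (n : ℝ) + al K n) * (32 * n + be K n) := by
      have : 0 < 32 * (n : ℝ) + al K n := by linarith
      have : 0 < 32 * (n : ℝ) + be K n := by linarith
      positivity
    have hb0 : 0 ≤ be K n := by linarith
    constructor
    · rw [sub_nonneg, div_le_one hD]
      have hab : al K n * be K n ≤ 1 := by nlinarith
      have hab0 : 0 ≤ al K n * be K n := by positivity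
      have e1 : (n : ℝ) * t ≤ n := by nlinarith
      have e2 : 2 * (n : ℝ) * (32 * n * t + al K n * be K n) ≤ 2 * n * (32 * n + 1) := by
        have : 32 * (n : ℝ) * t + al K n * be K n ≤ 32 * n + 1 := by nlinarith
        nlinarith
      have e3 : 1024 * (n : ℝ) ^ 2 ≤ (32 * (n : ℝ) + al K n) * (32 * n + be K n) := by
        nlinarith
      nlinarith
    · have : 0 ≤ 2 * (n : ℝ) * (32 * n * t + al K n * be K n) /
        ((32 * n + al K n) * (32 * n + be K n)) := by positivity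
      linarith
  · constructor <;> norm_num

lemma ep_eq_zero {K n : ℕ} (h : n % 3 ≠ 1) (t : ℝ) : ep K n t = 0 := by
  unfold ep; rw [if_neg h]

lemma dl_eq_zero {n : ℕ} (h : n % 3 ≠ 2) : dl n = 0 := by
  unfold dl; rw [if_neg h]

/-- signed deviation from the parabola -/
noncomputable def dev (K : ℕ) (t : ℝ) (n : ℕ) : ℝ := YY K t n - XX t n ^ 2

lemma dev_lower {K n : ℕ} (hn : n < 3 * K) {t : ℝ} (ht0 : 0 ≤ t) (ht1 : t ≤ 1) :
    -(1 / 2) ≤ dev K t n := by
  obtain ⟨e0, e1⟩ := ep_mem hn ht0 ht1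
  have d0 := dl_nonneg n
  obtain ⟨d1, d2⟩ := dl_le n
  have h0 : dl n * t ≤ dl n := by nlinarith
  have h1 : 0 ≤ dl n * t := by positivity
  have h2 : (n : ℝ) * (dl n * t) ≤ 1 / 8 := by
    have : (n : ℝ) * (dl n * t) ≤ n * dl n := by
      have : (0 : ℝ) ≤ n := Nat.cast_nonneg n
      nlinarith
    linarith
  have h3 : (dl n * t) ^ 2 ≤ 1 / 16 := by nlinarith
  simp only [dev, YY, XX]
  nlinarith

lemma dev_upper {K n : ℕ} (hn : n < 3 * K) {t : ℝ} (ht0 : 0 ≤ t) (ht1 : t ≤ 1) :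
    dev K t n ≤ if n % 3 = 1 then 1 else 0 := by
  obtain ⟨e0, e1⟩ := ep_mem hn ht0 ht1
  have d0 := dl_nonneg n
  have h1 : 0 ≤ dl n * t := by positivity
  have hn0 : (0 : ℝ) ≤ n := Nat.cast_nonneg n
  split_ifs with h
  · have : dl n = 0 := dl_eq_zero (by omega)
    simp only [dev, YY, XX, this]
    linarith
  · have : ep K n t = 0 := ep_eq_zero h t
    simp only [dev, YY, XX, this]
    nlinarith [mul_nonneg hn0 h1, sq_nonneg (dl n * t)]

lemma XX_gap {u v : ℕ} {t : ℝ} (ht0 : 0 ≤ t) (ht1 : t ≤ 1) :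
    (v : ℝ) - u - dl u ≤ XX t v - XX t u := by
  have d0 := dl_nonneg v
  have h0 : dl u * t ≤ dl u := by nlinarith [dl_nonneg u]
  have h1 : 0 ≤ dl v * t := by positivity
  simp only [XX]
  linarith

lemma XX_lt {u v : ℕ} (huv : u < v) {t : ℝ} (ht0 : 0 ≤ t) (ht1 : t ≤ 1) : XX t u < XX t v := by
  have := XX_gap (u := u) (v := v) ht0 ht1
  have d := (dl_le u).1
  have : (u : ℝ) + 1 ≤ v := by exact_mod_cast huv
  linarith

lemma YY_lt {K u v : ℕ} (hv : v < 3 * K) (huv : u < v) {t : ℝ} (ht0 : 0 ≤ t) (ht1 : t ≤ 1) :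
    YY K t u < YY K t v := by
  obtain ⟨e0, e1⟩ := ep_mem (show u < 3 * K by omega) ht0 ht1
  obtain ⟨f0, f1⟩ := ep_mem hv ht0 ht1
  have h1 : (u : ℝ) + 1 ≤ v := by exact_mod_cast huv
  have hu0 : (0 : ℝ) ≤ u := Nat.cast_nonneg u
  simp only [YY]
  by_cases h : u % 3 = 1
  · have : (1 : ℝ) ≤ u := by exact_mod_cast (show 1 ≤ u by omega)
    nlinarith
  · rw [ep_eq_zero h]
    nlinarith

/-- orientation of three points -/
noncomputable def T3 (K : ℕ) (t : ℝ) (u v w : ℕ) : ℝ :=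
  (XX t v - XX t u) * (YY K t w - YY K t u) - (YY K t v - YY K t u) * (XX t w - XX t u)

lemma T3_pos {K u v w : ℕ} (hw : w < 3 * K) (huv : u < v) (hvw : v < w)
    (hne : ¬ (v % 3 = 1 ∧ u + 1 = v ∧ w = v + 1)) {t : ℝ} (ht0 : 0 ≤ t) (ht1 : t ≤ 1) :
    0 < T3 K t u v w := by
  set a := XX t v - XX t u with ha
  set b := XX t w - XX t v with hb
  have hid : T3 K t u v w = (a + b) * (a * b - dev K t v) + dev K t w * a + dev K t u * b := by
    simp only [T3, dev, ha, hb]
    ring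
  have lu := dev_lower (show u < 3 * K by omega) ht0 ht1
  have lw := dev_lower hw ht0 ht1
  have uv := dev_upper (show v < 3 * K by omega) ht0 ht1
  have ga := XX_gap (u := u) (v := v) ht0 ht1
  have gb := XX_gap (u := v) (v := w) ht0 ht1
  have du := (dl_le u).1
  have dv := (dl_le v).1
  have h1 : (u : ℝ) + 1 ≤ v := by exact_mod_cast huv
  have h2 : (v : ℝ) + 1 ≤ w := by exact_mod_cast hvw
  have a0 : 15 / 16 ≤ a := by rw [ha]; linarith
  have b0 : 15 / 16 ≤ b := by rw [hb]; linarith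
  have key : 0 < a * b - dev K t v - 1 / 2 := by
    by_cases h : v % 3 = 1
    · rw [if_pos h] at uv
      have dv0 : dl v = 0 := dl_eq_zero (by omega)
      rw [dv0] at gb
      have b1 : 1 ≤ b := by rw [hb]; linarith
      by_cases hu : u + 1 = v
      · have hw2 : v + 2 ≤ w := by
          by_contra hcon
          exact hne ⟨h, hu, by omega⟩
        have : (v : ℝ) + 2 ≤ w := by exact_mod_cast hw2
        have b2 : 2 ≤ b := by rw [hb]; linarith
        nlinarith
      · have : (u : ℝ) + 2 ≤ v := by exact_mod_cast (show u + 2 ≤ v by omega)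
        have a2 : 31 / 16 ≤ a := by rw [ha]; linarith
        nlinarith
    · rw [if_neg h] at uv
      nlinarith
  rw [hid]
  nlinarith [mul_pos (show 0 < a + b by linarith) key]

lemma T3_cluster {K v : ℕ} (hv : v < 3 * K) (h : v % 3 = 1) (t : ℝ) :
    T3 K t (v - 1) v (v + 1) = 4 * v * ((t - al K v) * (t - be K v)) /
      ((32 * v + al K v) * (32 * v + be K v)) := by
  obtain ⟨a0, ab, b1⟩ := al_be hv
  have h1 : 1 ≤ v := by omega
  have h1' : (1 : ℝ) ≤ v := by exact_mod_cast h1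
  have c1 : (((v - 1 : ℕ)) : ℝ) = (v : ℝ) - 1 := by rw [Nat.cast_sub h1]; simp
  have e1 : XX t (v - 1) = (v : ℝ) - 1 := by
    simp only [XX]; rw [dl_eq_zero (by omega), c1]; ring
  have e2 : XX t v = v := by
    simp only [XX]; rw [dl_eq_zero (by omega)]; ring
  have e3 : XX t (v + 1) = v + 1 + t / (16 * v) := by
    simp only [XX, dl]; rw [if_pos (by omega)]; push_cast; ring
  have f1 : YY K t (v - 1) = ((v : ℝ) - 1) ^ 2 := by
    simp only [YY]; rw [ep_eq_zero (by omega), c1]; ring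
  have f2 : YY K t v = (v : ℝ) ^ 2 + (1 - 2 * v * (32 * v * t + al K v * be K v) /
    ((32 * v + al K v) * (32 * v + be K v))) := by
    simp only [YY, ep]; rw [if_pos h]
  have f3 : YY K t (v + 1) = ((v : ℝ) + 1) ^ 2 := by
    simp only [YY]; rw [ep_eq_zero (by omega)]; push_cast; ring
  rw [T3, e1, e2, e3, f1, f2, f3]
  have g1 : (v : ℝ) ≠ 0 := by linarith
  have g2 : 32 * (v : ℝ) + al K v ≠ 0 := by linarith
  have g3 : 32 * (v : ℝ) + be K v ≠ 0 := by linarith
  have hD : (32 * (v : ℝ) + al K v) * (32 * v + be K v) ≠ 0 := mul_ne_zero g2 g3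
  have hr : 2 * v * (32 * v * t + al K v * be K v) /
    ((32 * v + al K v) * (32 * v + be K v)) * ((32 * v + al K v) * (32 * v + be K v))
      = 2 * v * (32 * v * t + al K v * be K v) := div_mul_cancel₀ _ hD
  have hq : t / (16 * v) * v = t / 16 := by field_simp
  rw [eq_div_iff hD]
  set r := 2 * v * (32 * v * t + al K v * be K v) /
    ((32 * v + al K v) * (32 * v + be K v)) with hrdef
  set q := t / (16 * (v : ℝ)) with hqdef
  linear_combination (2 + q) * hr + (-2 * ((32 * (v : ℝ) + al K v) * (32 * v + be K v))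
    + 2 * (32 * v * t + al K v * be K v)) * hq

end Pool.Agent.H392R3.HN
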