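import Mathlib
import Pool.Agent.H392R3.HN.Move

namespace Pool.Agent.H392R3.HN

lemma wt_vv {k : ℕ} (hk : 2 ≤ k) (x y : ℝ) : wt (vv k x y) = 1 + x + y := by
  obtain ⟨k, rfl⟩ := Nat.exists_eq_add_of_le' hk
  rw [wt, Fin.sum_univ_succ, Fin.sum_univ_succ, Fin.sum_univ_succ]
  have : ∑ i : Fin k, vv (k + 2) x y i.succ.succ.succ = 0 := by
    apply Finset.sum_eq_zero
    intro i _
    simp only [vv, Fin.val_succ]
    rw [if_neg (by omega), if_neg (by omega), if_neg (by omega)]
  have a0 : vv (k + 2) x y 0 = 1 := by simp [vv]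
  have a1 : vv (k + 2) x y (Fin.succ 0) = x := by
    simp only [vv, Fin.val_succ, Fin.val_zero]; norm_num
  have a2 : vv (k + 2) x y (Fin.succ (Fin.succ 0)) = y := by
    simp only [vv, Fin.val_succ, Fin.val_zero]; norm_num
  rw [this, a0, a1, a2]
  ring

lemma wt_ee {k : ℕ} (j : Fin k) : wt (ee k j) = 1 := by
  rw [wt, Finset.sum_eq_single j.succ]
  · simp [ee]
  · intro b _ hb
    simp only [ee]
    rw [if_neg]
    intro h
    exact hb (Fin.ext (by simpa using h))
  · intro h; exact absurd (Finset.mem_univ _) h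

lemma wt_affine {k : ℕ} (t : ℝ) (H0 H1 : Fin (k + 1) → ℝ) :
    wt (fun l => (1 - t) * H0 l + t * H1 l) = (1 - t) * wt H0 + t * wt H1 := by
  simp only [wt, Finset.sum_add_distrib, Finset.mul_sum]

lemma sum_pnt {k : ℕ} (H : Fin (k + 1) → ℝ) (hw : 0 < wt H) :
    ∑ j, pnt H j = 1 - H 0 / wt H := by
  have h1 : wt H = H 0 + ∑ j : Fin k, H j.succ := Fin.sum_univ_succ H
  have h2 : ∑ j, pnt H j = (∑ j : Fin k, H j.succ) / wt H := by
    simp only [pnt, Finset.sum_div]
  rw [h2, show ∑ j : Fin k, H j.succ = wt H - H 0 by linarith, sub_div, div_self hw.ne']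

lemma mem_segment_apnt {k : ℕ} (H0 H1 : Fin (k + 1) → ℝ) (h0 : H0 0 = H1 0) (w0 : 0 < wt H0)
    (w1 : 0 < wt H1) (z : Fin (k + 1) → ℝ) :
    z ∈ segment ℝ (apnt 0 H0) (apnt 1 H1) ↔
      ∃ t : ℝ, 0 ≤ t ∧ t ≤ 1 ∧ z = apnt t (fun l => (1 - t) * H0 l + t * H1 l) := by
  constructor
  · rintro ⟨α, β, hα, hβ, hαβ, rfl⟩
    have hω : 0 < α / wt H0 + β / wt H1 := by
      rcases hα.lt_or_eq with h | h
      · have : 0 < α / wt H0 := by positivity
        have : 0 ≤ β / wt H1 := by positivity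
        linarith
      · have hβ' : β = 1 := by linarith
        rw [← h, hβ', zero_div, zero_add]
        positivity
    set ω := α / wt H0 + β / wt H1 with hωdef
    set t := β / wt H1 / ω with ht
    have e1 : t * ω = β / wt H1 := div_mul_cancel₀ _ hω.ne'
    have e2 : (1 - t) * ω = α / wt H0 := by rw [sub_mul, e1, hωdef]; ring
    have hW : ((1 - t) * wt H0 + t * wt H1) * ω = 1 := by
      calc ((1 - t) * wt H0 + t * wt H1) * ω
          = ((1 - t) * ω) * wt H0 + (t * ω) * wt H1 := by ring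
        _ = α + β := by rw [e1, e2, div_mul_cancel₀ _ w0.ne', div_mul_cancel₀ _ w1.ne']
        _ = 1 := hαβ
    have hWpos : (1 - t) * wt H0 + t * wt H1 ≠ 0 := by
      intro h; rw [h, zero_mul] at hW; exact zero_ne_one hW
    have hinv : ((1 - t) * wt H0 + t * wt H1)⁻¹ = ω := by
      exact inv_eq_of_mul_eq_one_right hW
    refine ⟨t, by positivity, ?_, ?_⟩
    · rw [ht, div_le_one hω, hωdef]
      have : 0 ≤ α / wt H0 := by positivity
      linarith
    · ext l
      refine Fin.cases ?_ (fun j => ?_) l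
      · simp only [apnt, Pi.add_apply, Pi.smul_apply, Fin.cons_zero, smul_eq_mul, wt_affine]
        rw [div_eq_mul_inv _ ((1 - t) * wt H0 + t * wt H1), hinv, ← h0]
        have : t * ((1 - t) * H0 0 + t * H0 0) * ω = (t * ω) * H0 0 := by ring
        rw [this, e1]
        ring
      · simp only [apnt, Pi.add_apply, Pi.smul_apply, Fin.cons_succ, smul_eq_mul, pnt, wt_affine]
        rw [div_eq_mul_inv _ ((1 - t) * wt H0 + t * wt H1), hinv]
        have : ((1 - t) * H0 j.succ + t * H1 j.succ) * ω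
          = ((1 - t) * ω) * H0 j.succ + (t * ω) * H1 j.succ := by ring
        rw [this, e1, e2]
        ring
  · rintro ⟨t, t0, t1, rfl⟩
    have hW : 0 < (1 - t) * wt H0 + t * wt H1 := by
      rcases t0.lt_or_eq with h | h
      · have : 0 < t * wt H1 := by positivity
        have : 0 ≤ (1 - t) * wt H0 := mul_nonneg (by linarith) w0.le
        linarith
      · rw [← h]; linarith
    refine ⟨(1 - t) * wt H0 / ((1 - t) * wt H0 + t * wt H1),
      t * wt H1 / ((1 - t) * wt H0 + t * wt H1),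
      div_nonneg (mul_nonneg (by linarith) w0.le) hW.le, by positivity, ?_, ?_⟩
    · rw [← add_div, div_self hW.ne']
    · ext l
      refine Fin.cases ?_ (fun j => ?_) l
      · simp only [apnt, Pi.add_apply, Pi.smul_apply, Fin.cons_zero, smul_eq_mul, wt_affine]
        rw [← h0]
        have := w0.ne'
        have := w1.ne'
        have := hW.ne'
        field_simp
        ring
      · simp only [apnt, Pi.add_apply, Pi.smul_apply, Fin.cons_succ, smul_eq_mul, pnt, wt_affine]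
        have := w0.ne'
        have := w1.ne'
        have := hW.ne'
        field_simp

/-- the configuration at time `t` -/
noncomputable def HH (K k : ℕ) (t : ℝ) : Fin (3 * K) ⊕ Fin k → Fin (k + 1) → ℝ :=
  cfg k (fun n => XX t n) (fun n => YY K t n)

/-- the ordering configuration -/
noncomputable def PP (K k : ℕ) : Fin (3 * K) ⊕ Fin k → Fin (k + 1) → ℝ :=
  cfg k (fun n => (n : ℝ)) (fun n => (n : ℝ) ^ 2)

lemma XX_nonneg {t : ℝ} (ht : 0 ≤ t) (n : ℕ) : 0 ≤ XX t n := by
  have := dl_nonneg n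
  simp only [XX]; positivity

lemma YY_nonneg {K n : ℕ} (hn : n < 3 * K) {t : ℝ} (t0 : 0 ≤ t) (t1 : t ≤ 1) : 0 ≤ YY K t n := by
  have := (ep_mem hn t0 t1).1
  simp only [YY]; positivity

lemma wt_HH {K k : ℕ} (hk : 2 ≤ k) {t : ℝ} (t0 : 0 ≤ t) (t1 : t ≤ 1)
    (i : Fin (3 * K) ⊕ Fin k) : 0 < wt (HH K k t i) := by
  rcases i with n | j
  · have h1 := XX_nonneg t0 n
    have h2 := YY_nonneg n.2 t0 t1
    simp only [HH, cfg, Sum.elim_inl]
    rw [wt_vv hk]
    linarith
  · simp only [HH, cfg, Sum.elim_inr]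
    rw [wt_ee]
    norm_num

lemma wt_PP {K k : ℕ} (hk : 2 ≤ k) (i : Fin (3 * K) ⊕ Fin k) : 0 < wt (PP K k i) := by
  rcases i with n | j
  · simp only [PP, cfg, Sum.elim_inl]
    rw [wt_vv hk]
    positivity
  · simp only [PP, cfg, Sum.elim_inr]
    rw [wt_ee]
    norm_num

lemma HH_affine (K k : ℕ) (t : ℝ) (i : Fin (3 * K) ⊕ Fin k) :
    HH K k t i = fun l => (1 - t) * HH K k 0 i l + t * HH K k 1 i l := by
  rcases i with n | j
  · ext l
    simp only [HH, cfg, Sum.elim_inl, vv]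
    split_ifs
    · ring
    · exact XX_affine t n
    · exact YY_affine K t n
    · ring
  · ext l
    simp only [HH, cfg, Sum.elim_inr]
    ring

lemma HH_zero_inl (K k : ℕ) (t : ℝ) (n : Fin (3 * K)) : HH K k t (Sum.inl n) 0 = 1 := by
  simp [HH, cfg, vv]

lemma HH_zero_inr (K k : ℕ) (t : ℝ) (j : Fin k) : HH K k t (Sum.inr j) 0 = 0 := by
  simp [HH, cfg, ee]

lemma HH_zero (K k : ℕ) (t t' : ℝ) (i : Fin (3 * K) ⊕ Fin k) : HH K k t i 0 = HH K k t' i 0 := by
  rcases i with n | j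
  · rw [HH_zero_inl, HH_zero_inl]
  · rw [HH_zero_inr, HH_zero_inr]

/-- the sets of the family -/
noncomputable def aset (K k : ℕ) (i : Fin (3 * K) ⊕ Fin k) : Set (Fin (k + 1) → ℝ) :=
  segment ℝ (apnt 0 (HH K k 0 i)) (apnt 1 (HH K k 1 i))

lemma mem_aset {K k : ℕ} (hk : 2 ≤ k) (i : Fin (3 * K) ⊕ Fin k) (z : Fin (k + 1) → ℝ) :
    z ∈ aset K k i ↔ ∃ t : ℝ, 0 ≤ t ∧ t ≤ 1 ∧ z = apnt t (HH K k t i) := by
  rw [aset, mem_segment_apnt _ _ (HH_zero K k 0 1 i) (wt_HH hk le_rfl zero_le_one i)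
    (wt_HH hk zero_le_one le_rfl i)]
  constructor
  · rintro ⟨t, t0, t1, h⟩
    exact ⟨t, t0, t1, by rw [HH_affine K k t i]; exact h⟩
  · rintro ⟨t, t0, t1, h⟩
    exact ⟨t, t0, t1, by rw [HH_affine K k t i] at h; exact h⟩

/-- comparison of points -/
lemma pnt_eq {N k : ℕ} (hk : 2 ≤ k) (x y x' y' : Fin N → ℝ) (i j : Fin N ⊕ Fin k)
    (wi : 0 < wt (cfg k x y i)) (wj : 0 < wt (cfg k x' y' j))
    (h : pnt (cfg k x y i) = pnt (cfg k x' y' j)) :
    (∃ n m, i = Sum.inl n ∧ j = Sum.inl m ∧ x n = x' m ∧ wt (cfg k x y i) = wt (cfg k x' y' j))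
      ∨ ∃ l, i = Sum.inr l ∧ j = Sum.inr l := by
  have hs : cfg k x y i 0 / wt (cfg k x y i) = cfg k x' y' j 0 / wt (cfg k x' y' j) := by
    have e1 := sum_pnt _ wi
    have e2 := sum_pnt _ wj
    rw [h] at e1
    linarith
  rcases i with n | l
  · rcases j with m | l'
    · left
      have e1 : cfg k x y (Sum.inl n) 0 = 1 := by simp [cfg, vv]
      have e2 : cfg k x' y' (Sum.inl m) 0 = 1 := by simp [cfg, vv]
      rw [e1, e2, one_div, one_div, inv_inj] at hs
      refine ⟨n, m, rfl, rfl, ?_, hs⟩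
      have := congrFun h ⟨0, by omega⟩
      simp only [pnt] at this
      rw [hs, div_left_inj' wj.ne'] at this
      simpa [cfg, vv] using this
    · exfalso
      have e1 : cfg k x y (Sum.inl n) 0 = 1 := by simp [cfg, vv]
      have e2 : cfg k x' y' (Sum.inr l') 0 = 0 := by simp [cfg, ee]
      rw [e1, e2, zero_div] at hs
      exact absurd hs (by positivity)
  · rcases j with m | l'
    · exfalso
      have e1 : cfg k x y (Sum.inr l) 0 = 0 := by simp [cfg, ee]
      have e2 : cfg k x' y' (Sum.inl m) 0 = 1 := by simp [cfg, vv]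
      rw [e1, e2, zero_div] at hs
      exact absurd hs.symm (by positivity)
    · right
      refine ⟨l, rfl, ?_⟩
      have := congrFun h l
      simp only [pnt, cfg, Sum.elim_inr, wt_ee, div_one, ee, Fin.val_succ, if_true] at this
      split_ifs at this with h1
      · rw [show l = l' from Fin.ext (by omega)]
      · exact absurd this one_ne_zero

lemma aset_disjoint {K k : ℕ} (hk : 2 ≤ k) (i j : Fin (3 * K) ⊕ Fin k) (hij : i ≠ j) :
    Disjoint (aset K k i) (aset K k j) := by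
  rw [Set.disjoint_left]
  intro z hi hj
  obtain ⟨t, t0, t1, e1⟩ := (mem_aset hk i z).1 hi
  obtain ⟨t', t0', t1', e2⟩ := (mem_aset hk j z).1 hj
  rw [e1] at e2
  have hp : pnt (HH K k t i) = pnt (HH K k t' j) := by
    ext l
    have := congrFun e2 l.succ
    simpa [apnt] using this
  have h0 := congrFun e2 0
  simp only [apnt, Fin.cons_zero] at h0
  rcases pnt_eq hk _ _ _ _ i j (wt_HH hk t0 t1 i) (wt_HH hk t0' t1' j) hp with
    ⟨n, m, rfl, rfl, hx, hw⟩ | ⟨l, rfl, rfl⟩
  · rw [HH_zero_inl, HH_zero_inl] at h0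
    have hw' : wt (HH K k t (Sum.inl n)) = wt (HH K k t' (Sum.inl m)) := hw
    rw [hw', mul_one, mul_one, div_left_inj' (wt_HH hk t0' t1' _).ne'] at h0
    subst h0
    apply hij
    rcases lt_trichotomy (n : ℕ) m with h | h | h
    · exact absurd hx (XX_lt h t0 t1).ne
    · rw [Fin.ext h]
    · exact absurd hx (XX_lt h t0 t1).ne'
  · exact hij rfl

lemma p_injective {K k : ℕ} (hk : 2 ≤ k) :
    Function.Injective fun i : Fin (3 * K) ⊕ Fin k => pnt (PP K k i) := by
  intro i j h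
  rcases pnt_eq hk _ _ _ _ i j (wt_PP hk i) (wt_PP hk j) h with
    ⟨n, m, rfl, rfl, hx, hw⟩ | ⟨l, rfl, rfl⟩
  · have : n = m := Fin.ext (by exact_mod_cast hx)
    rw [this]
  · rfl

end Pool.Agent.H392R3.HN
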