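import Mathlib
import Pool.Agent.H392R3.HN.Geo

namespace Pool.Agent.H392R3.HN

/-- linear part of the plane coordinate system -/
noncomputable def planeLin (k : ℕ) (t : ℝ) : (Fin k → ℝ) →ₗ[ℝ] (Fin (k + 1) → ℝ) where
  toFun x := Fin.cons (-(t * ∑ j, x j)) x
  map_add' x y := by
    ext l
    refine Fin.cases ?_ (fun j => ?_) l
    · simp [Finset.sum_add_distrib]; ring
    · simp
  map_smul' c x := by
    ext l
    refine Fin.cases ?_ (fun j => ?_) l
    · simp only [Pi.smul_apply, smul_eq_mul, Fin.cons_zero, RingHom.id_apply,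
        ← Finset.mul_sum]
      ring
    · simp

noncomputable def plane (k : ℕ) (t : ℝ) : (Fin k → ℝ) →ᵃ[ℝ] (Fin (k + 1) → ℝ) :=
  (planeLin k t).toAffineMap +
    AffineMap.const ℝ (Fin k → ℝ) (Fin.cons t (fun _ => 0) : Fin (k + 1) → ℝ)

lemma plane_apply (k : ℕ) (t : ℝ) (x : Fin k → ℝ) :
    plane k t x = Fin.cons (t * (1 - ∑ j, x j)) x := by
  ext l
  refine Fin.cases ?_ (fun j => ?_) l
  · simp [plane, planeLin]; ring
  · simp [plane, planeLin]

lemma plane_injective (k : ℕ) (t : ℝ) : Function.Injective (plane k t) := by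
  intro x y h
  rw [plane_apply, plane_apply] at h
  exact (Fin.cons_injective2 h).2

lemma plane_pnt (k : ℕ) (t : ℝ) (H : Fin (k + 1) → ℝ) (hw : 0 < wt H) :
    plane k t (pnt H) = apnt t H := by
  rw [plane_apply, apnt, sum_pnt H hw]
  congr 1
  ring

lemma met {K k : ℕ} (hk : 2 ≤ k) {t : ℝ} (t0 : 0 ≤ t) (t1 : t ≤ 1)
    (B : Set (Fin (3 * K) ⊕ Fin k))
    (hs : ∀ s : Fin (k + 1) → Fin (3 * K) ⊕ Fin k, (∀ j, s j ∈ B) →
      SignType.sign (Matrix.of fun j => HH K k t (s j)).det
        = SignType.sign (Matrix.of fun j => PP K k (s j)).det) :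
    MetConsistently (aset K k) (fun i => pnt (PP K k i)) B := by
  refine ⟨plane k t, plane_injective k t, fun i => pnt (HH K k t i), ?_, ?_⟩
  · intro i _
    rw [plane_pnt k t _ (wt_HH hk t0 t1 i), mem_aset hk]
    exact ⟨t, t0, t1, rfl⟩
  · intro s hsB
    rw [orient_pnt (fun j => HH K k t (s j)) (fun j => wt_HH hk t0 t1 _),
      orient_pnt (fun j => PP K k (s j)) (fun j => wt_PP hk _), hs s hsB]

lemma tri_eq_T3 {K : ℕ} (t : ℝ) (u v w : Fin (3 * K)) :
    tri (fun n : Fin (3 * K) => XX t n) (fun n => YY K t n) u v w = T3 K t u v w := rfl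

lemma tri_P_pos {K : ℕ} (u v w : Fin (3 * K)) (huv : u < v) (hvw : v < w) :
    0 < tri (fun n : Fin (3 * K) => (n : ℝ)) (fun n => (n : ℝ) ^ 2) u v w := by
  have h1 : ((u : ℕ) : ℝ) < v := by exact_mod_cast huv
  have h2 : ((v : ℕ) : ℝ) < w := by exact_mod_cast hvw
  have : tri (fun n : Fin (3 * K) => (n : ℝ)) (fun n => (n : ℝ) ^ 2) u v w
      = ((v : ℝ) - u) * ((w : ℝ) - u) * ((w : ℝ) - v) := by
    simp only [tri]; ring
  rw [this]
  have a : 0 < ((v : ℕ) : ℝ) - u := by linarith
  have b : 0 < ((w : ℕ) : ℝ) - u := by linarith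
  have c : 0 < ((w : ℕ) : ℝ) - v := by linarith
  exact mul_pos (mul_pos a b) c

/-- a subfamily missing the middle point of some cluster is met consistently -/
lemma met_of_missing {K k : ℕ} (hk : 2 ≤ k) (B : Set (Fin (3 * K) ⊕ Fin k)) (c : ℕ) (hc : c < K)
    (hmiss : ∀ n : Fin (3 * K), (n : ℕ) = 3 * c + 1 → Sum.inl n ∉ B) :
    MetConsistently (aset K k) (fun i => pnt (PP K k i)) B := by
  have hK : (0 : ℝ) < K := by exact_mod_cast (show 0 < K by omega)
  set t : ℝ := ((c : ℝ) + 1 / 2) / K with ht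
  have t0 : 0 ≤ t := by positivity
  have t1 : t ≤ 1 := by
    rw [ht, div_le_one hK]
    have : (c : ℝ) + 1 ≤ K := by exact_mod_cast hc
    linarith
  apply met hk t0 t1
  intro s hs
  refine sign_all {n | Sum.inl n ∈ B} _ _ _ _ ?_ k hk s ?_
  · intro s₂ hs₂
    refine all_sign {n | Sum.inl n ∈ B} _ _ _ _ ?_ ?_ ?_ ?_ ?_ ?_ s₂ hs₂
    · intro a b hab; exact XX_lt hab t0 t1
    · intro a b hab; exact YY_lt b.2 hab t0 t1
    · intro a b hab
      show ((a : ℕ) : ℝ) < ((b : ℕ) : ℝ)
      exact_mod_cast hab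
    · intro a b hab
      have h1 : ((a : ℕ) : ℝ) < b := by exact_mod_cast hab
      have h0 : (0 : ℝ) ≤ ((a : ℕ) : ℝ) := Nat.cast_nonneg _
      show ((a : ℕ) : ℝ) ^ 2 < ((b : ℕ) : ℝ) ^ 2
      nlinarith
    · intro u v w hu hv hw huv hvw
      rw [tri_eq_T3]
      by_cases hne : ((v : ℕ) % 3 = 1 ∧ (u : ℕ) + 1 = v ∧ (w : ℕ) = v + 1)
      · obtain ⟨h3, h4, h5⟩ := hne
        have hcv : (v : ℕ) / 3 ≠ c := by
          intro h
          exact hmiss v (by omega) hv
        have hu' : (u : ℕ) = v - 1 := by omega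
        rw [hu', h5, T3_cluster v.2 h3]
        obtain ⟨a0, ab, b1⟩ := al_be v.2
        have hv1 : (1 : ℝ) ≤ ((v : ℕ) : ℝ) := by exact_mod_cast (show 1 ≤ (v : ℕ) by omega)
        have hpos : 0 < (t - al K v) * (t - be K v) := by
          rcases lt_or_gt_of_ne hcv with h | h
          · -- earlier cluster
            have h' : (((v : ℕ) / 3 : ℕ) : ℝ) + 1 ≤ c := by exact_mod_cast h
            have : be K v < t := by
              rw [ht]; unfold be
              apply div_lt_div_of_pos_right _ hK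
              linarith
            exact mul_pos (by linarith) (by linarith)
          · have h' : (c : ℝ) + 1 ≤ (((v : ℕ) / 3 : ℕ) : ℝ) := by exact_mod_cast h
            have : t < al K v := by
              rw [ht]; unfold al
              apply div_lt_div_of_pos_right _ hK
              linarith
            exact mul_pos_of_neg_of_neg (by linarith) (by linarith)
        have hD1 : 0 < 32 * ((v : ℕ) : ℝ) + al K v := by linarith
        have hD2 : 0 < 32 * ((v : ℕ) : ℝ) + be K v := by linarith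
        positivity
      · exact T3_pos w.2 huv hvw hne t0 t1
    · intro u v w huv hvw
      exact tri_P_pos u v w huv hvw
  · intro j n hj
    have := hs j
    rw [hj] at this
    exact this

end Pool.Agent.H392R3.HN
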