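import Mathlib
import Pool.Agent.H392R3.HN.Met

namespace Pool.Agent.H392R3.HN

/-- the image of an affine map `ℝ^k → ℝ^(k+1)` lies in a hyperplane -/
lemma exists_functional {k : ℕ} (φ : (Fin k → ℝ) →ᵃ[ℝ] (Fin (k + 1) → ℝ)) :
    ∃ f : (Fin (k + 1) → ℝ) →ₗ[ℝ] ℝ, f ≠ 0 ∧ ∀ y, f (φ y) = f (φ 0) := by
  have hlt : LinearMap.range φ.linear < ⊤ := by
    rw [lt_top_iff_ne_top]
    intro h
    have h1 := LinearMap.finrank_range_le φ.linear
    rw [h, finrank_top, Module.finrank_fin_fun, Module.finrank_fin_fun] at h1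
    omega
  obtain ⟨f, hf0, hf⟩ := Submodule.exists_le_ker_of_lt_top _ hlt
  refine ⟨f, hf0, fun y => ?_⟩
  have h1 : φ y = φ.linear y + φ 0 := by
    have := φ.map_vadd 0 y
    simpa using this
  have h2 : f (φ.linear y) = 0 := by
    have : φ.linear y ∈ LinearMap.ker f := hf (LinearMap.mem_range_self _ _)
    simpa using this
  rw [h1, map_add, h2, zero_add]

lemma functional_apply {k : ℕ} (f : (Fin (k + 1) → ℝ) →ₗ[ℝ] ℝ) (x : Fin (k + 1) → ℝ) :
    f x = x 0 * f (Pi.single 0 1) + ∑ j : Fin k, x j.succ * f (Pi.single j.succ 1) := by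
  have h3 : x = ∑ l, x l • (Pi.single l 1 : Fin (k + 1) → ℝ) := by
    ext m
    simp [Finset.sum_apply, Pi.single_apply]
  conv_lhs => rw [h3]
  rw [map_sum, Fin.sum_univ_succ]
  simp only [map_smul, smul_eq_mul]

lemma apnt_inr {K k : ℕ} (t : ℝ) (j : Fin k) :
    apnt t (HH K k t (Sum.inr j)) = Pi.single j.succ 1 := by
  have hH : HH K k t (Sum.inr j) = ee k j := rfl
  ext l
  refine Fin.cases ?_ (fun m => ?_) l
  · rw [hH]
    simp only [apnt, Fin.cons_zero, wt_ee]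
    rw [Pi.single_eq_of_ne (Fin.succ_ne_zero j).symm]
    simp [ee]
  · rw [hH]
    simp only [apnt, Fin.cons_succ, pnt, wt_ee, div_one, ee, Fin.val_succ, Pi.single_apply,
      Fin.succ_inj]
    by_cases h : m = j
    · rw [if_pos (by rw [h]), if_pos h]
    · rw [if_neg (fun h' => h (Fin.ext (by omega))), if_neg h]

/-- all the times coincide -/
lemma common_time {K k : ℕ} (hk : 2 ≤ k) (hK : 0 < K) (φ : (Fin k → ℝ) →ᵃ[ℝ] (Fin (k + 1) → ℝ))
    (y : Fin (3 * K) ⊕ Fin k → (Fin k → ℝ)) (τ : Fin (3 * K) ⊕ Fin k → ℝ)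
    (h0 : ∀ i, 0 ≤ τ i) (h1 : ∀ i, τ i ≤ 1)
    (h : ∀ i, φ (y i) = apnt (τ i) (HH K k (τ i) i)) :
    ∀ n m : Fin (3 * K), τ (Sum.inl n) = τ (Sum.inl m) := by
  obtain ⟨f, hf0, hf⟩ := exists_functional φ
  set c := f (φ 0) with hc
  have hsing : ∀ j : Fin k, f (Pi.single j.succ 1) = c := by
    intro j
    rw [← apnt_inr (K := K) (τ (Sum.inr j)) j, ← h (Sum.inr j), hf]
  have hmov : ∀ n : Fin (3 * K), f (Pi.single 0 1) * τ (Sum.inl n) = c := by
    intro n
    have e := hf (y (Sum.inl n))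
    rw [h (Sum.inl n), functional_apply] at e
    have hw := wt_HH (K := K) hk (h0 (Sum.inl n)) (h1 (Sum.inl n)) (Sum.inl n)
    simp only [hsing] at e
    rw [← Finset.sum_mul] at e
    have e2 : ∑ i : Fin k, apnt (τ (Sum.inl n)) (HH K k (τ (Sum.inl n)) (Sum.inl n)) i.succ
        = 1 - 1 / wt (HH K k (τ (Sum.inl n)) (Sum.inl n)) := by
      have := sum_pnt _ hw
      rw [HH_zero_inl] at this
      rw [← this]
      exact Finset.sum_congr rfl fun i _ => by simp [apnt]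
    rw [e2] at e
    simp only [apnt, Fin.cons_zero, HH_zero_inl] at e
    have hw' := hw.ne'
    field_simp at e
    linarith
  have hv : f (Pi.single 0 1) ≠ 0 := by
    intro hv
    have n : Fin (3 * K) := ⟨0, by omega⟩
    have hc0 : c = 0 := by rw [← hmov n, hv, zero_mul]
    apply hf0
    apply LinearMap.ext
    intro x
    rw [functional_apply]
    simp only [hsing, hv, hc0, mul_zero, Finset.sum_const_zero, add_zero, LinearMap.zero_apply]
  intro n m
  have := (hmov n).trans (hmov m).symm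
  exact mul_left_cancel₀ hv this

lemma HH_const {K k : ℕ} (t t' : ℝ) (j : Fin k) :
    HH K k t (Sum.inr j) = HH K k t' (Sum.inr j) := rfl

/-- the whole family is not met consistently -/
lemma not_met {K k : ℕ} (hk : 2 ≤ k) (hK : 0 < K) :
    ¬ MetConsistently (aset K k) (fun i => pnt (PP K k i)) Set.univ := by
  rintro ⟨φ, -, y, hmem, hsign⟩
  have hm : ∀ i, ∃ t : ℝ, 0 ≤ t ∧ t ≤ 1 ∧ φ (y i) = apnt t (HH K k t i) := fun i =>
    (mem_aset hk i _).1 (hmem i (Set.mem_univ _))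
  choose τ h0 h1 h using hm
  have hct := common_time hk hK φ y τ h0 h1 h
  set n0 : Fin (3 * K) := ⟨0, by omega⟩ with hn0
  set t := τ (Sum.inl n0) with ht
  have t0 : 0 ≤ t := h0 _
  have t1 : t ≤ 1 := h1 _
  have hHH : ∀ i, HH K k (τ i) i = HH K k t i := by
    intro i
    rcases i with n | j
    · rw [hct n n0]
    · exact HH_const _ _ _
  -- the induced self-map
  obtain ⟨c, hc⟩ := orient_affine
    (((LinearMap.funLeft ℝ ℝ (Fin.succ : Fin k → Fin (k + 1))).toAffineMap).comp φ)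
  have hproj : ∀ i, ((LinearMap.funLeft ℝ ℝ (Fin.succ : Fin k → Fin (k + 1))).toAffineMap).comp φ
      (y i) = pnt (HH K k t i) := by
    intro i
    ext j
    simp only [AffineMap.comp_apply, LinearMap.coe_toAffineMap, LinearMap.funLeft_apply]
    rw [h i, hHH i, apnt, Fin.cons_succ]
  have key : ∀ s : Fin (k + 1) → Fin (3 * K) ⊕ Fin k,
      SignType.sign (Matrix.of fun j => HH K k t (s j)).det
        = SignType.sign c * SignType.sign (Matrix.of fun j => PP K k (s j)).det := by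
    intro s
    rw [← orient_pnt (fun j => HH K k t (s j)) (fun j => wt_HH hk t0 t1 _),
      ← orient_pnt (fun j => PP K k (s j)) (fun j => wt_PP hk _), ← hsign s (fun j => Set.mem_univ _),
      ← sign_mul, ← hc (fun j => y (s j))]
    congr 2
    ext j
    rw [hproj]
  have key2 : ∀ s : Fin 3 → Fin (3 * K) ⊕ Fin 2,
      SignType.sign (Matrix.of fun j => HH K 2 t (s j)).det
        = SignType.sign c * SignType.sign (Matrix.of fun j => PP K 2 (s j)).det := by
    intro s₂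
    obtain ⟨s, hs⟩ := exists_level s₂ k hk
    have := key s
    rw [show (Matrix.of fun j => HH K k t (s j)).det = (Matrix.of fun j => HH K 2 t (s₂ j)).det
      from hs _ _, show (Matrix.of fun j => PP K k (s j)).det
        = (Matrix.of fun j => PP K 2 (s₂ j)).det from hs _ _] at this
    exact this
  -- the sign of c
  have hc1 : SignType.sign c = 1 := by
    have := key2 ![Sum.inl n0, Sum.inr 0, Sum.inr 1]
    rw [det_eq_D3, det_eq_D3] at this
    have e : ∀ x y : Fin (3 * K) → ℝ, D3 (cfg 2 x y (Sum.inl n0)) (cfg 2 x y (Sum.inr 0))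
        (cfg 2 x y (Sum.inr 1)) = 1 := by
      intro x y
      obtain ⟨a1, a2, a3⟩ := cfg2_inl x y n0
      obtain ⟨c1, c2, c3⟩ := cfg2_inr0 x y
      obtain ⟨d1, d2, d3⟩ := cfg2_inr1 x y
      rw [D3, a1, a2, a3, c1, c2, c3, d1, d2, d3]; ring
    have e1 := e (fun n => XX t n) (fun n => YY K t n)
    have e2 := e (fun n => (n : ℝ)) (fun n => (n : ℝ) ^ 2)
    simp only [Matrix.cons_val_zero, Matrix.cons_val_one, Matrix.cons_val] at this
    rw [show D3 (HH K 2 t (Sum.inl n0)) (HH K 2 t (Sum.inr 0)) (HH K 2 t (Sum.inr 1)) = 1 from e1,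
      show D3 (PP K 2 (Sum.inl n0)) (PP K 2 (Sum.inr 0)) (PP K 2 (Sum.inr 1)) = 1 from e2] at this
    simpa using this.symm
  -- the bad cluster
  have hK' : (0 : ℝ) < K := by exact_mod_cast hK
  obtain ⟨c', hc'K, hlo, hhi⟩ : ∃ c' : ℕ, c' < K ∧ (c' : ℝ) / K ≤ t ∧ t ≤ ((c' : ℝ) + 1) / K := by
    by_cases hlt : t * K < K
    · refine ⟨⌊t * K⌋₊, ?_, ?_, ?_⟩
      · rw [Nat.floor_lt (by positivity)]
        exact hlt
      · rw [div_le_iff₀ hK']
        exact Nat.floor_le (by positivity)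
      · rw [le_div_iff₀ hK']
        exact (Nat.lt_floor_add_one _).le
    · refine ⟨K - 1, by omega, ?_, ?_⟩
      · rw [div_le_iff₀ hK']
        have : ((K - 1 : ℕ) : ℝ) ≤ K := by exact_mod_cast Nat.sub_le K 1
        linarith
      · rw [le_div_iff₀ hK']
        have : ((K - 1 : ℕ) : ℝ) + 1 = K := by
          rw [Nat.cast_sub (by omega)]; simp
        rw [this]
        nlinarith
  have hv : 3 * c' + 1 < 3 * K := by omega
  have hw : 3 * c' + 2 < 3 * K := by omega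
  have hu : 3 * c' < 3 * K := by omega
  have := key2 ![Sum.inl ⟨3 * c', hu⟩, Sum.inl ⟨3 * c' + 1, hv⟩, Sum.inl ⟨3 * c' + 2, hw⟩]
  rw [det_eq_D3, det_eq_D3, hc1, one_mul] at this
  simp only [Matrix.cons_val_zero, Matrix.cons_val_one, Matrix.cons_val] at this
  rw [show D3 (HH K 2 t (Sum.inl ⟨3 * c', hu⟩)) (HH K 2 t (Sum.inl ⟨3 * c' + 1, hv⟩))
      (HH K 2 t (Sum.inl ⟨3 * c' + 2, hw⟩)) = T3 K t (3 * c') (3 * c' + 1) (3 * c' + 2)
      from D3_inl _ _ _ _ _,
    show D3 (PP K 2 (Sum.inl ⟨3 * c', hu⟩)) (PP K 2 (Sum.inl ⟨3 * c' + 1, hv⟩))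
      (PP K 2 (Sum.inl ⟨3 * c' + 2, hw⟩)) = tri (fun n : Fin (3 * K) => (n : ℝ))
        (fun n => (n : ℝ) ^ 2) ⟨3 * c', hu⟩ ⟨3 * c' + 1, hv⟩ ⟨3 * c' + 2, hw⟩
      from D3_inl _ _ _ _ _,
    sign_pos (tri_P_pos (K := K) ⟨3 * c', hu⟩ ⟨3 * c' + 1, hv⟩ ⟨3 * c' + 2, hw⟩
      (by simp [Fin.lt_def]) (by simp [Fin.lt_def])), sign_eq_one_iff] at this
  have hcl := T3_cluster hv (by omega) t
  rw [show 3 * c' + 1 - 1 = 3 * c' by omega, show 3 * c' + 1 + 1 = 3 * c' + 2 by omega] at hcl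
  rw [hcl] at this
  obtain ⟨a0, ab, b1⟩ := al_be hv
  have hal : al K (3 * c' + 1) = (c' : ℝ) / K := by
    unfold al; rw [show (3 * c' + 1) / 3 = c' by omega]
  have hbe : be K (3 * c' + 1) = ((c' : ℝ) + 1) / K := by
    unfold be; rw [show (3 * c' + 1) / 3 = c' by omega]
  have hle : (t - al K (3 * c' + 1)) * (t - be K (3 * c' + 1)) ≤ 0 := by
    rw [hal, hbe]
    exact mul_nonpos_of_nonneg_of_nonpos (by linarith) (by linarith)
  have hD1 : 0 < 32 * ((3 * c' + 1 : ℕ) : ℝ) + al K (3 * c' + 1) := by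
    have : 0 < ((3 * c' + 1 : ℕ) : ℝ) := by positivity
    linarith
  have hD2 : 0 < 32 * ((3 * c' + 1 : ℕ) : ℝ) + be K (3 * c' + 1) := by
    have : 0 < ((3 * c' + 1 : ℕ) : ℝ) := by positivity
    linarith
  have hfin : 4 * ((3 * c' + 1 : ℕ) : ℝ) * ((t - al K (3 * c' + 1)) * (t - be K (3 * c' + 1))) /
      ((32 * ((3 * c' + 1 : ℕ) : ℝ) + al K (3 * c' + 1)) *
        (32 * ((3 * c' + 1 : ℕ) : ℝ) + be K (3 * c' + 1))) ≤ 0 := by
    apply div_nonpos_of_nonpos_of_nonneg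
    · exact mul_nonpos_of_nonneg_of_nonpos (by positivity) hle
    · positivity
  linarith

end Pool.Agent.H392R3.HN
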